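import Mathlib

set_option autoImplicit false

/-!
# Gram kernels of tensor powers in `ℝ⁴`
-/

open Finset Matrix

namespace Pool.Agent.H85.BMK

/-- Vectors of `ℝ⁴`. -/
abbrev V4 : Type := Fin 4 → ℝ

/-- The coordinates of the tensor power `u^{⊗N}`. -/
def tp (N : ℕ) (u : V4) (f : Fin N → Fin 4) : ℝ := ∏ p, u (f p)

lemma sum_tp (N : ℕ) (u v : V4) :
    ∑ f : Fin N → Fin 4, tp N u f * tp N v f = (u ⬝ᵥ v) ^ N := by
  simp only [tp, ← Finset.prod_mul_distrib, dotProduct]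
  exact (Fintype.sum_pow (fun a => u a * v a) N).symm

/-- The derivative of `u^{⊗N}` in the direction `w`. -/
def dtp (N : ℕ) (u w : V4) (f : Fin N → Fin 4) : ℝ :=
  ∑ p, (∏ q ∈ univ.erase p, u (f q)) * w (f p)

lemma hasDerivAt_tp (N : ℕ) (u w : V4) (f : Fin N → Fin 4) :
    HasDerivAt (fun x : ℝ => tp N (u + x • w) f) (dtp N u w f) 0 := by
  have h := HasDerivAt.fun_finsetProd (u := (univ : Finset (Fin N)))
    (f := fun p (x : ℝ) => u (f p) + x * w (f p)) (f' := fun p => w (f p)) (x := (0 : ℝ))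
    (fun p _ => by simpa using ((hasDerivAt_id (0:ℝ)).mul_const (w (f p))).const_add (u (f p)))
  simpa [tp, dtp, smul_eq_mul] using h

lemma hasDerivAt_tp_at (N : ℕ) (u w : V4) (f : Fin N → Fin 4) (y : ℝ) :
    HasDerivAt (fun x : ℝ => tp N (u + x • w) f) (dtp N (u + y • w) w f) y := by
  have h := hasDerivAt_tp N (u + y • w) w f
  have h2 : HasDerivAt (fun x : ℝ => x - y) 1 y := (hasDerivAt_id y).sub_const y
  have h3 := HasDerivAt.comp (h := fun x : ℝ => x - y) y (by simpa using h) h2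
  simp only [mul_one] at h3
  refine h3.congr_of_eventuallyEq (Filter.Eventually.of_forall fun x => ?_)
  simp only [Function.comp]
  congr 1
  rw [add_assoc, ← add_smul]
  congr 2
  ring

lemma hasDerivAt_dot (u w v : V4) (y : ℝ) :
    HasDerivAt (fun x : ℝ => (u + x • w) ⬝ᵥ v) (w ⬝ᵥ v) y := by
  have : (fun x : ℝ => (u + x • w) ⬝ᵥ v) = fun x => u ⬝ᵥ v + x * (w ⬝ᵥ v) := by
    funext x; rw [add_dotProduct, smul_dotProduct, smul_eq_mul]
  rw [this]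
  simpa using ((hasDerivAt_id y).mul_const (w ⬝ᵥ v)).const_add (u ⬝ᵥ v)

lemma sum_dtp_tp (N : ℕ) (u w v : V4) :
    ∑ f : Fin N → Fin 4, dtp N u w f * tp N v f = N * (u ⬝ᵥ v) ^ (N - 1) * (w ⬝ᵥ v) := by
  have h1 : HasDerivAt (fun x : ℝ => ∑ f : Fin N → Fin 4, tp N (u + x • w) f * tp N v f)
      (∑ f : Fin N → Fin 4, dtp N u w f * tp N v f) 0 := by
    apply HasDerivAt.fun_sum
    intro f _
    exact (hasDerivAt_tp N u w f).mul_const _
  have h2 : HasDerivAt (fun x : ℝ => ((u + x • w) ⬝ᵥ v) ^ N)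
      (N * (u ⬝ᵥ v) ^ (N - 1) * (w ⬝ᵥ v)) 0 := by
    simpa using (hasDerivAt_dot u w v 0).fun_pow N
  have h3 : (fun x : ℝ => ∑ f : Fin N → Fin 4, tp N (u + x • w) f * tp N v f)
      = fun x : ℝ => ((u + x • w) ⬝ᵥ v) ^ N := by
    funext x; exact sum_tp N _ _
  rw [h3] at h1
  exact h1.unique h2

lemma sum_dtp_dtp (N : ℕ) (u w v w' : V4) :
    ∑ f : Fin N → Fin 4, dtp N u w f * dtp N v w' f
      = N * (w ⬝ᵥ w') * (u ⬝ᵥ v) ^ (N - 1)
        + N * (N - 1 : ℕ) * (w ⬝ᵥ v) * (u ⬝ᵥ w') * (u ⬝ᵥ v) ^ (N - 2) := by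
  have h1 : HasDerivAt (fun x : ℝ => ∑ f : Fin N → Fin 4, dtp N u w f * tp N (v + x • w') f)
      (∑ f : Fin N → Fin 4, dtp N u w f * dtp N v w' f) 0 := by
    apply HasDerivAt.fun_sum
    intro f _
    exact (hasDerivAt_tp N v w' f).const_mul _
  have hd : HasDerivAt (fun x : ℝ => u ⬝ᵥ (v + x • w')) (u ⬝ᵥ w') 0 := by
    have := hasDerivAt_dot v w' u 0
    simpa [dotProduct_comm] using this
  have hd' : HasDerivAt (fun x : ℝ => w ⬝ᵥ (v + x • w')) (w ⬝ᵥ w') 0 := by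
    have := hasDerivAt_dot v w' w 0
    simpa [dotProduct_comm] using this
  have h2 : HasDerivAt (fun x : ℝ => N * (u ⬝ᵥ (v + x • w')) ^ (N - 1) * (w ⬝ᵥ (v + x • w')))
      (N * (w ⬝ᵥ w') * (u ⬝ᵥ v) ^ (N - 1)
        + N * (N - 1 : ℕ) * (w ⬝ᵥ v) * (u ⬝ᵥ w') * (u ⬝ᵥ v) ^ (N - 2)) 0 := by
    have h := ((hd.fun_pow (N - 1)).const_mul (N : ℝ)).fun_mul hd'
    refine h.congr_deriv ?_
    simp only [zero_smul, add_zero, Nat.sub_sub]
    ring
  have h3 : (fun x : ℝ => ∑ f : Fin N → Fin 4, dtp N u w f * tp N (v + x • w') f)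
      = fun x : ℝ => N * (u ⬝ᵥ (v + x • w')) ^ (N - 1) * (w ⬝ᵥ (v + x • w')) := by
    funext x; exact sum_dtp_tp N _ _ _
  rw [h3] at h1
  exact h1.unique h2

/-- The Laplacian of `u^{⊗N}`. -/
noncomputable def ltp (N : ℕ) (u : V4) (f : Fin N → Fin 4) : ℝ :=
  ∑ c, deriv (fun x : ℝ => dtp N (u + x • Pi.single c 1) (Pi.single c 1) f) 0

lemma differentiable_dtp (N : ℕ) (u w w' : V4) (f : Fin N → Fin 4) :
    Differentiable ℝ (fun x : ℝ => dtp N (u + x • w) w' f) := by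
  unfold dtp
  simp only [Pi.add_apply, Pi.smul_apply, smul_eq_mul]
  fun_prop

lemma sum_ltp_mul (N : ℕ) (u : V4) (F : (Fin N → Fin 4) → ℝ) (G : V4 → V4 → ℝ)
    (hG : ∀ u w : V4, ∑ f : Fin N → Fin 4, dtp N u w f * F f = G u w) (D : Fin 4 → ℝ)
    (hD : ∀ c, HasDerivAt (fun x : ℝ => G (u + x • Pi.single c 1) (Pi.single c 1)) (D c) 0) :
    ∑ f : Fin N → Fin 4, ltp N u f * F f = ∑ c, D c := by
  unfold ltp
  simp only [Finset.sum_mul]
  rw [Finset.sum_comm]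
  refine Finset.sum_congr rfl fun c _ => ?_
  have h1 : HasDerivAt (fun x : ℝ => ∑ f : Fin N → Fin 4,
      dtp N (u + x • Pi.single c 1) (Pi.single c 1) f * F f)
      (∑ f : Fin N → Fin 4,
        deriv (fun x : ℝ => dtp N (u + x • Pi.single c 1) (Pi.single c 1) f) 0 * F f) 0 := by
    apply HasDerivAt.fun_sum
    intro f _
    exact ((differentiable_dtp N u _ _ f) 0).hasDerivAt.mul_const _
  have h3 : (fun x : ℝ => ∑ f : Fin N → Fin 4,
      dtp N (u + x • Pi.single c 1) (Pi.single c 1) f * F f)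
      = fun x : ℝ => G (u + x • Pi.single c 1) (Pi.single c 1) := by
    funext x; exact hG _ _
  rw [h3] at h1
  exact h1.unique (hD c)

lemma dot_single (v : V4) (c : Fin 4) : v ⬝ᵥ Pi.single c 1 = v c := by simp

lemma single_dot (v : V4) (c : Fin 4) : Pi.single c 1 ⬝ᵥ v = v c := by simp

lemma sum_sq (u : V4) : ∑ c, u c * u c = u ⬝ᵥ u := rfl

/-- `⟨Δ u^{⊗(K+4)}, v^{⊗(K+4)}⟩`. -/
lemma sum_ltp_tp (K : ℕ) (u v : V4) :
    ∑ f : Fin (K + 4) → Fin 4, ltp (K + 4) u f * tp (K + 4) v f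
      = (K + 4) * (K + 3) * (u ⬝ᵥ v) ^ (K + 2) * (v ⬝ᵥ v) := by
  rw [sum_ltp_mul (K + 4) u (tp (K + 4) v)
    (fun u w => (K + 4) * (u ⬝ᵥ v) ^ (K + 3) * (w ⬝ᵥ v))
    (fun u w => by simpa using sum_dtp_tp (K + 4) u w v)
    (fun c => (K + 4) * (K + 3) * (u ⬝ᵥ v) ^ (K + 2) * (v c * v c))]
  · rw [← Finset.mul_sum, sum_sq]
  · intro c
    have hd := hasDerivAt_dot u (Pi.single c 1) v 0
    have h := ((hd.fun_pow (K + 3)).const_mul ((K : ℝ) + 4)).mul_const (Pi.single c 1 ⬝ᵥ v)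
    refine h.congr_deriv ?_
    simp only [zero_smul, add_zero, single_dot]
    have : K + 3 - 1 = K + 2 := rfl
    rw [this]
    push_cast
    ring

/-- `⟨Δ u^{⊗(K+4)}, ∂_w v^{⊗(K+4)}⟩`. -/
lemma sum_ltp_dtp (K : ℕ) (u v w : V4) :
    ∑ f : Fin (K + 4) → Fin 4, ltp (K + 4) u f * dtp (K + 4) v w f
      = (K + 4) * (K + 3) * ((K + 2) * (u ⬝ᵥ v) ^ (K + 1) * (u ⬝ᵥ w) * (v ⬝ᵥ v)
        + 2 * (u ⬝ᵥ v) ^ (K + 2) * (v ⬝ᵥ w)) := by
  have h1 : HasDerivAt (fun x : ℝ => ∑ f : Fin (K + 4) → Fin 4,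
      ltp (K + 4) u f * tp (K + 4) (v + x • w) f)
      (∑ f : Fin (K + 4) → Fin 4, ltp (K + 4) u f * dtp (K + 4) v w f) 0 := by
    apply HasDerivAt.fun_sum
    intro f _
    exact (hasDerivAt_tp (K + 4) v w f).const_mul _
  have hd : HasDerivAt (fun x : ℝ => u ⬝ᵥ (v + x • w)) (u ⬝ᵥ w) 0 := by
    have := hasDerivAt_dot v w u 0
    simpa [dotProduct_comm] using this
  have hq : HasDerivAt (fun x : ℝ => (v + x • w) ⬝ᵥ (v + x • w)) (2 * (v ⬝ᵥ w)) 0 := by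
    have e : (fun x : ℝ => (v + x • w) ⬝ᵥ (v + x • w))
        = fun x : ℝ => v ⬝ᵥ v + x * (2 * (v ⬝ᵥ w)) + x ^ 2 * (w ⬝ᵥ w) := by
      funext x
      simp only [add_dotProduct, dotProduct_add, smul_dotProduct, dotProduct_smul, smul_eq_mul]
      rw [dotProduct_comm w v]; ring
    rw [e]
    have h := (((hasDerivAt_id (0:ℝ)).mul_const (2 * (v ⬝ᵥ w))).const_add (v ⬝ᵥ v)).fun_add
      (((hasDerivAt_id (0:ℝ)).fun_pow 2).mul_const (w ⬝ᵥ w))
    simpa using h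
  have h2 : HasDerivAt (fun x : ℝ => (K + 4) * (K + 3) * (u ⬝ᵥ (v + x • w)) ^ (K + 2)
        * ((v + x • w) ⬝ᵥ (v + x • w)))
      ((K + 4) * (K + 3) * ((K + 2) * (u ⬝ᵥ v) ^ (K + 1) * (u ⬝ᵥ w) * (v ⬝ᵥ v)
        + 2 * (u ⬝ᵥ v) ^ (K + 2) * (v ⬝ᵥ w))) 0 := by
    have h := ((hd.fun_pow (K + 2)).const_mul (((K : ℝ) + 4) * (K + 3))).fun_mul hq
    refine h.congr_deriv ?_
    simp only [zero_smul, add_zero]
    have : K + 2 - 1 = K + 1 := rfl
    rw [this]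
    push_cast
    ring
  have h3 : (fun x : ℝ => ∑ f : Fin (K + 4) → Fin 4,
      ltp (K + 4) u f * tp (K + 4) (v + x • w) f)
      = fun x : ℝ => (K + 4) * (K + 3) * (u ⬝ᵥ (v + x • w)) ^ (K + 2)
        * ((v + x • w) ⬝ᵥ (v + x • w)) := by
    funext x; exact sum_ltp_tp K _ _
  rw [h3] at h1
  exact h1.unique h2

/-- `⟨Δ u^{⊗(K+4)}, Δ v^{⊗(K+4)}⟩`. -/
lemma sum_ltp_ltp (K : ℕ) (u v : V4) :
    ∑ f : Fin (K + 4) → Fin 4, ltp (K + 4) u f * ltp (K + 4) v f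
      = (K + 4) * (K + 3) * ((K + 2) * (K + 1) * (u ⬝ᵥ v) ^ K * (u ⬝ᵥ u) * (v ⬝ᵥ v)
        + 4 * (K + 4) * (u ⬝ᵥ v) ^ (K + 2)) := by
  have hcomm : ∑ f : Fin (K + 4) → Fin 4, ltp (K + 4) u f * ltp (K + 4) v f
      = ∑ f : Fin (K + 4) → Fin 4, ltp (K + 4) v f * ltp (K + 4) u f :=
    Finset.sum_congr rfl fun f _ => mul_comm _ _
  rw [hcomm, sum_ltp_mul (K + 4) v (ltp (K + 4) u)
    (fun v w => (K + 4) * (K + 3) * ((K + 2) * (u ⬝ᵥ v) ^ (K + 1) * (u ⬝ᵥ w) * (v ⬝ᵥ v)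
        + 2 * (u ⬝ᵥ v) ^ (K + 2) * (v ⬝ᵥ w)))
    (fun v w => by
      rw [← sum_ltp_dtp K u v w]
      exact Finset.sum_congr rfl fun f _ => mul_comm _ _)
    (fun c => (K + 4) * (K + 3) * ((K + 2) * ((K + 1) * (u ⬝ᵥ v) ^ K * (u c * u c)) * (v ⬝ᵥ v)
        + 4 * (K + 2) * (u ⬝ᵥ v) ^ (K + 1) * (u c * v c) + 2 * (u ⬝ᵥ v) ^ (K + 2)))]
  · rw [← Finset.mul_sum, Finset.sum_add_distrib, Finset.sum_add_distrib, ← Finset.sum_mul,
      ← Finset.mul_sum, ← Finset.mul_sum, ← Finset.mul_sum]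
    simp only [Finset.sum_const, Finset.card_univ, Fintype.card_fin]
    have e1 : ∑ c, u c * u c = u ⬝ᵥ u := rfl
    have e2 : ∑ c, u c * v c = u ⬝ᵥ v := rfl
    rw [e1, e2]
    simp only [nsmul_eq_mul]
    push_cast
    ring
  · intro c
    have hd : HasDerivAt (fun x : ℝ => u ⬝ᵥ (v + x • Pi.single c 1)) (u c) 0 := by
      have := hasDerivAt_dot v (Pi.single c 1) u 0
      simpa [dotProduct_comm] using this
    have hq : HasDerivAt (fun x : ℝ => (v + x • Pi.single c 1) ⬝ᵥ (v + x • Pi.single c 1))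
        (2 * v c) 0 := by
      have e : (fun x : ℝ => (v + x • Pi.single c 1) ⬝ᵥ (v + x • Pi.single c (1:ℝ)))
          = fun x : ℝ => v ⬝ᵥ v + x * (2 * v c) + x ^ 2 := by
        funext x
        simp only [add_dotProduct, dotProduct_add, smul_dotProduct, dotProduct_smul, smul_eq_mul,
          dot_single, single_dot]
        simp
        ring
      rw [e]
      have h := (((hasDerivAt_id (0:ℝ)).mul_const (2 * v c)).const_add (v ⬝ᵥ v)).fun_add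
        ((hasDerivAt_id (0:ℝ)).fun_pow 2)
      simpa using h
    have hs : HasDerivAt (fun x : ℝ => (v + x • Pi.single c (1:ℝ)) ⬝ᵥ Pi.single c 1) 1 0 := by
      have := hasDerivAt_dot v (Pi.single c 1) (Pi.single c 1) 0
      simpa using this
    have h := ((((hd.fun_pow (K + 1)).const_mul ((K : ℝ) + 2)).mul_const
      (u ⬝ᵥ Pi.single c 1)).fun_mul hq).fun_add
      (((hd.fun_pow (K + 2)).const_mul (2 : ℝ)).fun_mul hs)
    have h' := h.const_mul (((K : ℝ) + 4) * (K + 3))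
    refine h'.congr_deriv ?_
    simp only [zero_smul, add_zero, dot_single]
    have a1 : K + 1 - 1 = K := rfl
    have a2 : K + 2 - 1 = K + 1 := rfl
    rw [a1, a2]
    push_cast
    ring

end Pool.Agent.H85.BMK
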