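import Mathlib
import Pool.Agent.H85.BMK.Gram

set_option autoImplicit false

/-!
# Quadratic forms of the power kernels
-/

open Finset Matrix

namespace Pool.Agent.H85.BMK

variable {ι : Type*} [Fintype ι]

/-- `∑ l_i l_j ⟨u_i, u_j⟩^N`. -/
def qA (l : ι → ℝ) (u : ι → V4) (N : ℕ) : ℝ := ∑ i, ∑ j, l i * l j * (u i ⬝ᵥ u j) ^ N

/-- `∑ l_i l_j ⟨w_i, u_j⟩² ⟨u_i, u_j⟩^M`. -/
def qB (l : ι → ℝ) (u w : ι → V4) (M : ℕ) : ℝ :=
  ∑ i, ∑ j, l i * l j * ((w i ⬝ᵥ u j) ^ 2 * (u i ⬝ᵥ u j) ^ M)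

/-- `∑ l_i l_j ⟨w_i, w_j⟩ ⟨u_i, u_j⟩^M`. -/
def qC (l : ι → ℝ) (u w : ι → V4) (M : ℕ) : ℝ :=
  ∑ i, ∑ j, l i * l j * ((w i ⬝ᵥ w j) * (u i ⬝ᵥ u j) ^ M)

lemma sum_sum_gram {κ : Type*} [Fintype κ] (l : ι → ℝ) (x y : ι → κ → ℝ) :
    (∑ f, (∑ i, l i * x i f) * (∑ j, l j * y j f))
      = ∑ i, ∑ j, l i * l j * ∑ f, x i f * y j f := by
  have h : ∀ f, (∑ i, l i * x i f) * (∑ j, l j * y j f)
      = ∑ i, ∑ j, (l i * x i f) * (l j * y j f) := fun f => Finset.sum_mul_sum ..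
  simp only [h]
  rw [Finset.sum_comm]
  refine Finset.sum_congr rfl fun i _ => ?_
  rw [Finset.sum_comm]
  refine Finset.sum_congr rfl fun j _ => ?_
  rw [Finset.mul_sum]
  refine Finset.sum_congr rfl fun f _ => ?_
  ring

lemma sum_gram_nonneg {κ : Type*} [Fintype κ] (l : ι → ℝ) (x : ι → κ → ℝ) :
    0 ≤ ∑ i, ∑ j, l i * l j * ∑ f, x i f * x j f := by
  rw [← sum_sum_gram]
  exact Finset.sum_nonneg fun f _ => mul_self_nonneg _

lemma qC_nonneg (l : ι → ℝ) (u w : ι → V4) (M : ℕ) : 0 ≤ qC l u w M := by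
  have h := sum_gram_nonneg l
    (fun i (p : Fin 4 × (Fin M → Fin 4)) => w i p.1 * tp M (u i) p.2)
  refine h.trans_eq ?_
  unfold qC
  refine Finset.sum_congr rfl fun i _ => Finset.sum_congr rfl fun j _ => ?_
  congr 1
  rw [Fintype.sum_prod_type, ← sum_tp M (u i) (u j), dotProduct, Finset.sum_mul_sum]
  refine Finset.sum_congr rfl fun a _ => Finset.sum_congr rfl fun f _ => ?_
  ring

lemma qA_nonneg (l : ι → ℝ) (u : ι → V4) (N : ℕ) : 0 ≤ qA l u N := by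
  have h := sum_gram_nonneg l (fun i f => tp N (u i) f)
  refine h.trans_eq ?_
  unfold qA
  refine Finset.sum_congr rfl fun i _ => Finset.sum_congr rfl fun j _ => ?_
  rw [sum_tp]

/-- The recursion inequality. -/
lemma qA_step (l : ι → ℝ) (u : ι → V4) (hu : ∀ i, u i ⬝ᵥ u i = 1) (K : ℕ) :
    (K + 4) * (K + 3) * qA l u (K + 2) ^ 2
      ≤ qA l u (K + 4) * ((K + 2) * (K + 1) * qA l u K + 4 * (K + 4) * qA l u (K + 2)) := by
  have hcs := Finset.sum_mul_sq_le_sq_mul_sq (univ : Finset (Fin (K + 4) → Fin 4))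
    (fun f => ∑ i, l i * tp (K + 4) (u i) f) (fun f => ∑ i, l i * ltp (K + 4) (u i) f)
  have e1 : ∑ f : Fin (K + 4) → Fin 4, (∑ i, l i * tp (K + 4) (u i) f) ^ 2
      = qA l u (K + 4) := by
    simp only [sq]
    rw [sum_sum_gram]
    unfold qA
    refine Finset.sum_congr rfl fun i _ => Finset.sum_congr rfl fun j _ => ?_
    rw [sum_tp]
  have e2 : ∑ f : Fin (K + 4) → Fin 4,
      (∑ i, l i * tp (K + 4) (u i) f) * (∑ i, l i * ltp (K + 4) (u i) f)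
      = (K + 4) * (K + 3) * qA l u (K + 2) := by
    rw [sum_sum_gram]
    unfold qA
    rw [Finset.mul_sum]
    refine Finset.sum_congr rfl fun i _ => ?_
    rw [Finset.mul_sum]
    refine Finset.sum_congr rfl fun j _ => ?_
    have : ∑ f, tp (K + 4) (u i) f * ltp (K + 4) (u j) f
        = ∑ f, ltp (K + 4) (u j) f * tp (K + 4) (u i) f :=
      Finset.sum_congr rfl fun f _ => mul_comm _ _
    rw [this, sum_ltp_tp, hu i, dotProduct_comm (u j) (u i)]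
    ring
  have e3 : ∑ f : Fin (K + 4) → Fin 4, (∑ i, l i * ltp (K + 4) (u i) f) ^ 2
      = (K + 4) * (K + 3) *
        ((K + 2) * (K + 1) * qA l u K + 4 * (K + 4) * qA l u (K + 2)) := by
    simp only [sq]
    rw [sum_sum_gram]
    unfold qA
    rw [Finset.mul_sum, Finset.mul_sum, ← Finset.sum_add_distrib, Finset.mul_sum]
    refine Finset.sum_congr rfl fun i _ => ?_
    rw [Finset.mul_sum, Finset.mul_sum, ← Finset.sum_add_distrib, Finset.mul_sum]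
    refine Finset.sum_congr rfl fun j _ => ?_
    rw [sum_ltp_ltp, hu i, hu j]
    ring
  rw [e1, e2, e3] at hcs
  have hpos : (0 : ℝ) < (K + 4) * (K + 3) := by positivity
  have : ((K : ℝ) + 4) * (K + 3) * (((K : ℝ) + 4) * (K + 3) * qA l u (K + 2) ^ 2)
      ≤ ((K : ℝ) + 4) * (K + 3) * (qA l u (K + 4) *
        ((K + 2) * (K + 1) * qA l u K + 4 * (K + 4) * qA l u (K + 2))) := by
    nlinarith [hcs]
  exact le_of_mul_le_mul_left this hpos

/-- The squared norm of `∑ l_i ∂_{w_i} u_i^{⊗N}`. -/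
def qG (l : ι → ℝ) (u w : ι → V4) (N : ℕ) : ℝ :=
  ∑ f : Fin N → Fin 4, (∑ i, l i * dtp N (u i) (w i) f) ^ 2

lemma qG_nonneg (l : ι → ℝ) (u w : ι → V4) (N : ℕ) : 0 ≤ qG l u w N :=
  Finset.sum_nonneg fun _ _ => sq_nonneg _

lemma qG_eq (l : ι → ℝ) (u w : ι → V4) (hw : ∀ i j, u i ⬝ᵥ w j = - (w i ⬝ᵥ u j)) (M : ℕ) :
    qG l u w (M + 2) = (M + 2) * qC l u w (M + 1) - (M + 2) * (M + 1) * qB l u w M := by
  unfold qG qC qB
  simp only [sq (∑ i, l i * dtp (M + 2) (u i) (w i) _)]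
  rw [sum_sum_gram, Finset.mul_sum, Finset.mul_sum, ← Finset.sum_sub_distrib]
  refine Finset.sum_congr rfl fun i _ => ?_
  rw [Finset.mul_sum, Finset.mul_sum, ← Finset.sum_sub_distrib]
  refine Finset.sum_congr rfl fun j _ => ?_
  rw [sum_dtp_dtp, hw i j]
  have a1 : M + 2 - 1 = M + 1 := rfl
  have a2 : M + 2 - 2 = M := rfl
  rw [a1, a2]
  push_cast
  ring

end Pool.Agent.H85.BMK
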