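import Mathlib
import Pool.Agent.H85.BMK.Quad

set_option autoImplicit false

/-!
# Antisymmetric contractions of `ℝ⁴`
-/

open Finset Matrix
open scoped MatrixOrder

namespace Pool.Agent.H85.BMK

variable {ι : Type*} [Fintype ι]

/-- The defect of a contraction. -/
lemma exists_defect (T : Matrix (Fin 4) (Fin 4) ℝ)
    (hT : ∀ x : V4, (T *ᵥ x) ⬝ᵥ (T *ᵥ x) ≤ x ⬝ᵥ x) :
    ∃ Q : Matrix (Fin 4) (Fin 4) ℝ,
      ∀ x y : V4, (Q *ᵥ x) ⬝ᵥ (Q *ᵥ y) = x ⬝ᵥ y - (T *ᵥ x) ⬝ᵥ (T *ᵥ y) := by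
  obtain ⟨Q, hQ⟩ : ∃ Q : Matrix (Fin 4) (Fin 4) ℝ, 1 - Tᵀ * T = Qᵀ * Q := by
    have hpsd : (1 - Tᵀ * T).PosSemidef := by
      refine Matrix.PosSemidef.of_dotProduct_mulVec_nonneg ?_ ?_
      · rw [Matrix.IsHermitian, Matrix.conjTranspose_eq_transpose_of_trivial]
        simp [Matrix.transpose_sub, Matrix.transpose_mul]
      · intro x
        simp only [star_trivial]
        have : x ⬝ᵥ ((1 - Tᵀ * T) *ᵥ x) = x ⬝ᵥ x - (T *ᵥ x) ⬝ᵥ (T *ᵥ x) := by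
          rw [Matrix.sub_mulVec, Matrix.one_mulVec, dotProduct_sub, ← Matrix.mulVec_mulVec]
          congr 1
          rw [Matrix.dotProduct_mulVec, Matrix.vecMul_transpose]
        rw [this]
        linarith [hT x]
    obtain ⟨Q, hQ⟩ := CStarAlgebra.nonneg_iff_eq_star_mul_self.mp hpsd.nonneg
    refine ⟨Q, ?_⟩
    rw [hQ, Matrix.star_eq_conjTranspose, Matrix.conjTranspose_eq_transpose_of_trivial]
  refine ⟨Q, fun x y => ?_⟩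
  have h1 : (Q *ᵥ x) ⬝ᵥ (Q *ᵥ y) = x ⬝ᵥ ((Qᵀ * Q) *ᵥ y) := by
    rw [← Matrix.mulVec_mulVec, Matrix.dotProduct_mulVec, Matrix.dotProduct_mulVec,
      Matrix.dotProduct_mulVec, Matrix.vecMul_transpose]
  have h2 : (T *ᵥ x) ⬝ᵥ (T *ᵥ y) = x ⬝ᵥ ((Tᵀ * T) *ᵥ y) := by
    rw [← Matrix.mulVec_mulVec, Matrix.dotProduct_mulVec, Matrix.dotProduct_mulVec,
      Matrix.dotProduct_mulVec, Matrix.vecMul_transpose]
  rw [h1, h2, ← hQ, Matrix.sub_mulVec, Matrix.one_mulVec, dotProduct_sub]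

lemma qC_le_qA (l : ι → ℝ) (u : ι → V4) (T : Matrix (Fin 4) (Fin 4) ℝ)
    (hT : ∀ x : V4, (T *ᵥ x) ⬝ᵥ (T *ᵥ x) ≤ x ⬝ᵥ x) (M : ℕ) :
    qC l u (fun i => T *ᵥ u i) M ≤ qA l u (M + 1) := by
  obtain ⟨Q, key⟩ := exists_defect T hT
  have h := qC_nonneg l u (fun i => Q *ᵥ u i) M
  have e : qC l u (fun i => Q *ᵥ u i) M = qA l u (M + 1) - qC l u (fun i => T *ᵥ u i) M := by
    unfold qC qA
    rw [← Finset.sum_sub_distrib]
    refine Finset.sum_congr rfl fun i _ => ?_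
    rw [← Finset.sum_sub_distrib]
    refine Finset.sum_congr rfl fun j _ => ?_
    rw [key]
    ring
  linarith

lemma dot_antisymm (T : Matrix (Fin 4) (Fin 4) ℝ) (hTa : Tᵀ = -T) (u v : V4) :
    u ⬝ᵥ (T *ᵥ v) = -((T *ᵥ u) ⬝ᵥ v) := by
  rw [Matrix.dotProduct_mulVec, ← Matrix.mulVec_transpose, hTa, Matrix.neg_mulVec,
    neg_dotProduct]

/-- Upper bound for `qB`. -/
lemma qB_le (l : ι → ℝ) (u : ι → V4) (T : Matrix (Fin 4) (Fin 4) ℝ) (hTa : Tᵀ = -T)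
    (hT : ∀ x : V4, (T *ᵥ x) ⬝ᵥ (T *ᵥ x) ≤ x ⬝ᵥ x) (M : ℕ) :
    (M + 1) * qB l u (fun i => T *ᵥ u i) M ≤ qA l u (M + 2) := by
  have h1 := qG_nonneg l u (fun i => T *ᵥ u i) (M + 2)
  rw [qG_eq l u _ (fun i j => dot_antisymm T hTa (u i) (u j)) M] at h1
  have h2 := qC_le_qA l u T hT (M + 1)
  have h3 : ((M : ℝ) + 2) * ((M + 1) * qB l u (fun i => T *ᵥ u i) M)
      ≤ (M + 2) * qA l u (M + 2) := by
    have : ((M : ℝ) + 2) * qC l u (fun i => T *ᵥ u i) (M + 1) ≤ (M + 2) * qA l u (M + 1 + 1) :=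
      mul_le_mul_of_nonneg_left h2 (by positivity)
    have e : M + 1 + 1 = M + 2 := rfl
    rw [e] at this
    linarith
  exact le_of_mul_le_mul_left h3 (by positivity)

/-- The case `M = 0`. -/
lemma qA_add_qB_nonneg (l : ι → ℝ) (u : ι → V4) (T : Matrix (Fin 4) (Fin 4) ℝ) (hTa : Tᵀ = -T)
    (hT : ∀ x : V4, (T *ᵥ x) ⬝ᵥ (T *ᵥ x) ≤ x ⬝ᵥ x) :
    0 ≤ qA l u 2 + qB l u (fun i => T *ᵥ u i) 0 := by
  obtain ⟨Q, key⟩ := exists_defect T hT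
  have h1 := sum_gram_nonneg l (fun i (p : Fin 4 × Fin 4) =>
    u i p.1 * u i p.2 + (T *ᵥ u i) p.1 * (T *ᵥ u i) p.2)
  have h2 := sum_gram_nonneg l (fun i (p : Fin 4 × Fin 4) => (Q *ᵥ u i) p.1 * u i p.2)
  have h3 := sum_gram_nonneg l (fun i (p : Fin 4 × Fin 4) => (Q *ᵥ u i) p.1 * (T *ᵥ u i) p.2)
  have ten : ∀ a b c d : V4, ∑ p : Fin 4 × Fin 4, (a p.1 * b p.2) * (c p.1 * d p.2)
      = (a ⬝ᵥ c) * (b ⬝ᵥ d) := by
    intro a b c d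
    rw [Fintype.sum_prod_type, dotProduct, dotProduct, Finset.sum_mul_sum]
    exact Finset.sum_congr rfl fun p _ => Finset.sum_congr rfl fun q _ => by ring
  have e : 2 * (qA l u 2 + qB l u (fun i => T *ᵥ u i) 0)
      = (∑ i, ∑ j, l i * l j * ∑ p : Fin 4 × Fin 4,
          (u i p.1 * u i p.2 + (T *ᵥ u i) p.1 * (T *ᵥ u i) p.2)
            * (u j p.1 * u j p.2 + (T *ᵥ u j) p.1 * (T *ᵥ u j) p.2))
        + (∑ i, ∑ j, l i * l j * ∑ p : Fin 4 × Fin 4,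
          ((Q *ᵥ u i) p.1 * u i p.2) * ((Q *ᵥ u j) p.1 * u j p.2))
        + (∑ i, ∑ j, l i * l j * ∑ p : Fin 4 × Fin 4,
          ((Q *ᵥ u i) p.1 * (T *ᵥ u i) p.2) * ((Q *ᵥ u j) p.1 * (T *ᵥ u j) p.2)) := by
    unfold qA qB
    rw [← Finset.sum_add_distrib, Finset.mul_sum, ← Finset.sum_add_distrib,
      ← Finset.sum_add_distrib]
    refine Finset.sum_congr rfl fun i _ => ?_
    rw [← Finset.sum_add_distrib, Finset.mul_sum, ← Finset.sum_add_distrib,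
      ← Finset.sum_add_distrib]
    refine Finset.sum_congr rfl fun j _ => ?_
    rw [ten, ten, key]
    have e1 : ∑ p : Fin 4 × Fin 4,
        (u i p.1 * u i p.2 + (T *ᵥ u i) p.1 * (T *ᵥ u i) p.2)
          * (u j p.1 * u j p.2 + (T *ᵥ u j) p.1 * (T *ᵥ u j) p.2)
        = (u i ⬝ᵥ u j) * (u i ⬝ᵥ u j) + (u i ⬝ᵥ (T *ᵥ u j)) * (u i ⬝ᵥ (T *ᵥ u j))
          + ((T *ᵥ u i) ⬝ᵥ u j) * ((T *ᵥ u i) ⬝ᵥ u j)
          + ((T *ᵥ u i) ⬝ᵥ (T *ᵥ u j)) * ((T *ᵥ u i) ⬝ᵥ (T *ᵥ u j)) := by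
      rw [← ten, ← ten, ← ten, ← ten, ← Finset.sum_add_distrib, ← Finset.sum_add_distrib,
        ← Finset.sum_add_distrib]
      exact Finset.sum_congr rfl fun p _ => by ring
    rw [e1, dot_antisymm T hTa (u i) (u j)]
    ring
  linarith

end Pool.Agent.H85.BMK
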