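import Mathlib
import Pool.Agent.H85.BMK.Quat

set_option autoImplicit false

/-!
# Left and right multiplications by imaginary quaternions
-/

open Finset Matrix

namespace Pool.Agent.H85.BMK

variable {ι : Type*} [Fintype ι]

/-- Left multiplication by the imaginary units. -/
def lq (k : Fin 3) (u : V4) : V4 :=
  match k with
  | 0 => ![-u 1, u 0, -u 3, u 2]
  | 1 => ![-u 2, u 3, u 0, -u 1]
  | 2 => ![-u 3, -u 2, u 1, u 0]

/-- Right multiplication by the imaginary units. -/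
def rq (k : Fin 3) (u : V4) : V4 :=
  match k with
  | 0 => ![-u 1, u 0, u 3, -u 2]
  | 1 => ![-u 2, -u 3, u 0, u 1]
  | 2 => ![-u 3, u 2, -u 1, u 0]

lemma dot_lq (k : Fin 3) (u v : V4) : u ⬝ᵥ lq k v = - (lq k u ⬝ᵥ v) := by
  fin_cases k <;> simp [lq, dotProduct, Fin.sum_univ_four] <;> ring

lemma dot_rq (k : Fin 3) (u v : V4) : u ⬝ᵥ rq k v = - (rq k u ⬝ᵥ v) := by
  fin_cases k <;> simp [rq, dotProduct, Fin.sum_univ_four] <;> ring

lemma lq_dot_lq (k : Fin 3) (u v : V4) : lq k u ⬝ᵥ lq k v = u ⬝ᵥ v := by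
  fin_cases k <;> simp [lq, dotProduct, Fin.sum_univ_four] <;> ring

lemma rq_dot_rq (k : Fin 3) (u v : V4) : rq k u ⬝ᵥ rq k v = u ⬝ᵥ v := by
  fin_cases k <;> simp [rq, dotProduct, Fin.sum_univ_four] <;> ring

lemma sum_lq (u v : V4) :
    ∑ k, (lq k u ⬝ᵥ v) ^ 2 = (u ⬝ᵥ u) * (v ⬝ᵥ v) - (u ⬝ᵥ v) ^ 2 := by
  simp [lq, dotProduct, Fin.sum_univ_four, Fin.sum_univ_three]; ring

lemma sum_rq (u v : V4) :
    ∑ k, (rq k u ⬝ᵥ v) ^ 2 = (u ⬝ᵥ u) * (v ⬝ᵥ v) - (u ⬝ᵥ v) ^ 2 := by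
  simp [rq, dotProduct, Fin.sum_univ_four, Fin.sum_univ_three]; ring

lemma sum_qG_gen (l : ι → ℝ) (u : ι → V4) (hu : ∀ i, u i ⬝ᵥ u i = 1) (q : Fin 3 → V4 → V4)
    (h1 : ∀ k u v, u ⬝ᵥ q k v = - (q k u ⬝ᵥ v)) (h2 : ∀ k u v, q k u ⬝ᵥ q k v = u ⬝ᵥ v)
    (h3 : ∀ u v, ∑ k, (q k u ⬝ᵥ v) ^ 2 = (u ⬝ᵥ u) * (v ⬝ᵥ v) - (u ⬝ᵥ v) ^ 2) (M : ℕ) :
    ∑ k, qG l u (fun i => q k (u i)) (M + 2)
      = (M + 2) * ((M + 4) * qA l u (M + 2) - (M + 1) * qA l u M) := by
  have e1 : ∀ k, qC l u (fun i => q k (u i)) (M + 1) = qA l u (M + 2) := by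
    intro k
    unfold qC qA
    refine Finset.sum_congr rfl fun i _ => Finset.sum_congr rfl fun j _ => ?_
    simp only [h2]
    ring
  have e2 : ∑ k, qB l u (fun i => q k (u i)) M = qA l u M - qA l u (M + 2) := by
    unfold qB qA
    rw [Finset.sum_comm, ← Finset.sum_sub_distrib]
    refine Finset.sum_congr rfl fun i _ => ?_
    rw [Finset.sum_comm, ← Finset.sum_sub_distrib]
    refine Finset.sum_congr rfl fun j _ => ?_
    rw [← Finset.mul_sum, ← Finset.sum_mul, h3, hu i, hu j]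
    ring
  have e3 : ∀ k, qG l u (fun i => q k (u i)) (M + 2)
      = (M + 2) * qA l u (M + 2) - (M + 2) * (M + 1) * qB l u (fun i => q k (u i)) M := by
    intro k
    rw [qG_eq l u _ (fun i j => h1 k (u i) (u j)) M, e1 k]
  simp only [e3]
  rw [Finset.sum_sub_distrib, ← Finset.mul_sum, ← Finset.mul_sum, e2]
  simp only [Finset.sum_const, Finset.card_univ, Fintype.card_fin, nsmul_eq_mul]
  push_cast
  ring

lemma sum_qG_lq (l : ι → ℝ) (u : ι → V4) (hu : ∀ i, u i ⬝ᵥ u i = 1) (M : ℕ) :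
    ∑ k, qG l u (fun i => lq k (u i)) (M + 2)
      = (M + 2) * ((M + 4) * qA l u (M + 2) - (M + 1) * qA l u M) :=
  sum_qG_gen l u hu lq dot_lq lq_dot_lq sum_lq M

lemma sum_qG_rq (l : ι → ℝ) (u : ι → V4) (hu : ∀ i, u i ⬝ᵥ u i = 1) (M : ℕ) :
    ∑ k, qG l u (fun i => rq k (u i)) (M + 2)
      = (M + 2) * ((M + 4) * qA l u (M + 2) - (M + 1) * qA l u M) :=
  sum_qG_gen l u hu rq dot_rq rq_dot_rq sum_rq M

/-- The coefficient of `T` along the left multiplications. -/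
noncomputable def lcoef (T : Matrix (Fin 4) (Fin 4) ℝ) : Fin 3 → ℝ :=
  ![-(T 0 1 + T 2 3) / 2, (T 1 3 - T 0 2) / 2, -(T 0 3 + T 1 2) / 2]

/-- The coefficient of `T` along the right multiplications. -/
noncomputable def rcoef (T : Matrix (Fin 4) (Fin 4) ℝ) : Fin 3 → ℝ :=
  ![(T 2 3 - T 0 1) / 2, -(T 0 2 + T 1 3) / 2, (T 1 2 - T 0 3) / 2]

lemma mulVec_eq_quat (T : Matrix (Fin 4) (Fin 4) ℝ) (hTa : Tᵀ = -T) (u : V4) :
    T *ᵥ u = ∑ k, lcoef T k • lq k u + ∑ k, rcoef T k • rq k u := by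
  have h : ∀ i j, T j i = - T i j := fun i j => by
    have := congrFun (congrFun hTa i) j
    simpa using this
  have d : ∀ i, T i i = 0 := fun i => by have := h i i; linarith
  ext i
  fin_cases i <;>
    simp [Matrix.mulVec, dotProduct, Fin.sum_univ_four, Fin.sum_univ_three, lq, rq, lcoef, rcoef,
      d, h 0 1, h 0 2, h 0 3, h 1 2, h 1 3, h 2 3] <;> ring

/-- The operator `x ↦ - a x c`. -/
noncomputable def sop (T : Matrix (Fin 4) (Fin 4) ℝ) (x : V4) : V4 :=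
  - ∑ k, ∑ m, (lcoef T k * rcoef T m) • lq k (rq m x)

lemma sq_norm_mulVec (T : Matrix (Fin 4) (Fin 4) ℝ) (hTa : Tᵀ = -T) (x : V4) :
    (T *ᵥ x) ⬝ᵥ (T *ᵥ x)
      = (∑ k, lcoef T k ^ 2 + ∑ k, rcoef T k ^ 2) * (x ⬝ᵥ x) + 2 * (x ⬝ᵥ sop T x) := by
  rw [mulVec_eq_quat T hTa]
  unfold sop
  generalize lcoef T = a
  generalize rcoef T = c
  simp [dotProduct, Fin.sum_univ_four, Fin.sum_univ_three, lq, rq]
  ring

lemma sop_sop (T : Matrix (Fin 4) (Fin 4) ℝ) (x : V4) :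
    sop T (sop T x) = ((∑ k, lcoef T k ^ 2) * ∑ k, rcoef T k ^ 2) • x := by
  unfold sop
  generalize lcoef T = a
  generalize rcoef T = c
  ext i
  fin_cases i <;>
    simp [Fin.sum_univ_three, lq, rq] <;> ring

lemma sop_lin (T : Matrix (Fin 4) (Fin 4) ℝ) (s : ℝ) (x y : V4) :
    sop T (s • x + y) = s • sop T x + sop T y := by
  unfold sop
  ext i
  fin_cases i <;>
    simp [Fin.sum_univ_three, lq, rq] <;> ring

lemma sop_trace (T : Matrix (Fin 4) (Fin 4) ℝ) :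
    ∑ i, sop T (Pi.single i 1) i = 0 := by
  unfold sop
  simp [Fin.sum_univ_three, Fin.sum_univ_four, lq, rq]
  ring

lemma coef_bound (T : Matrix (Fin 4) (Fin 4) ℝ) (hTa : Tᵀ = -T)
    (hT : ∀ x : V4, (T *ᵥ x) ⬝ᵥ (T *ᵥ x) ≤ x ⬝ᵥ x) :
    √(∑ k, lcoef T k ^ 2) + √(∑ k, rcoef T k ^ 2) ≤ 1 := by
  set A := ∑ k, lcoef T k ^ 2 with hA
  set C := ∑ k, rcoef T k ^ 2 with hC
  have hA0 : 0 ≤ A := Finset.sum_nonneg fun _ _ => sq_nonneg _
  have hC0 : 0 ≤ C := Finset.sum_nonneg fun _ _ => sq_nonneg _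
  set s := √A * √C with hs
  have hs2 : s * s = A * C := by
    rw [hs, mul_mul_mul_comm, Real.mul_self_sqrt hA0, Real.mul_self_sqrt hC0]
  suffices h : A + C + 2 * s ≤ 1 by
    have h1 : (√A + √C) ^ 2 ≤ 1 := by
      have : (√A + √C) ^ 2 = A + C + 2 * s := by
        rw [hs, add_sq, Real.sq_sqrt hA0, Real.sq_sqrt hC0]; ring
      linarith
    have h2 : 0 ≤ √A + √C := by positivity
    nlinarith
  by_contra hcon
  push Not at hcon
  -- every vector `s y + S y` vanishes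
  have hz : ∀ y : V4, s • y + sop T y = 0 := by
    intro y
    have hSx : sop T (s • y + sop T y) = s • (s • y + sop T y) := by
      rw [sop_lin, sop_sop, smul_add, smul_smul, hs2, add_comm]
    have h1 := sq_norm_mulVec T hTa (s • y + sop T y)
    rw [hSx, dotProduct_smul, smul_eq_mul] at h1
    have h2 := hT (s • y + sop T y)
    rw [h1] at h2
    have h3 : (s • y + sop T y) ⬝ᵥ (s • y + sop T y) ≤ 0 := by
      by_contra h4
      push Not at h4
      nlinarith [mul_pos (sub_pos.mpr hcon) h4]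
    have h5 : (s • y + sop T y) ⬝ᵥ (s • y + sop T y) = 0 := by
      refine le_antisymm h3 ?_
      exact Finset.sum_nonneg fun _ _ => mul_self_nonneg _
    exact dotProduct_self_eq_zero.mp h5
  have htr := sop_trace T
  have h4 : ∀ i : Fin 4, sop T (Pi.single i 1) i = -s := by
    intro i
    have := congrFun (hz (Pi.single i 1)) i
    simp only [Pi.add_apply, Pi.smul_apply, Pi.single_eq_same, smul_eq_mul, mul_one,
      Pi.zero_apply] at this
    linarith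
  simp only [h4] at htr
  have hs0 : s = 0 := by
    simp only [Finset.sum_const, Finset.card_univ, Fintype.card_fin, nsmul_eq_mul] at htr
    push_cast at htr
    linarith
  have h6 := sq_norm_mulVec T hTa (Pi.single 0 1)
  have h7 : sop T (Pi.single 0 1) = 0 := by
    have := hz (Pi.single 0 1)
    rwa [hs0, zero_smul, zero_add] at this
  have h8 := hT (Pi.single 0 1)
  rw [h6, h7] at h8
  simp at h8
  linarith

/-- The bound on the squared norm of the rotation derivative. -/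
lemma qG_le (l : ι → ℝ) (u : ι → V4) (hu : ∀ i, u i ⬝ᵥ u i = 1)
    (T : Matrix (Fin 4) (Fin 4) ℝ) (hTa : Tᵀ = -T)
    (hT : ∀ x : V4, (T *ᵥ x) ⬝ᵥ (T *ᵥ x) ≤ x ⬝ᵥ x) (M : ℕ) :
    qG l u (fun i => T *ᵥ u i) (M + 2)
      ≤ (M + 2) * ((M + 4) * qA l u (M + 2) - (M + 1) * qA l u M) := by
  set DL : Fin 3 → (Fin (M + 2) → Fin 4) → ℝ :=
    fun k f => ∑ i, l i * dtp (M + 2) (u i) (lq k (u i)) f with hDL
  set DR : Fin 3 → (Fin (M + 2) → Fin 4) → ℝ :=
    fun k f => ∑ i, l i * dtp (M + 2) (u i) (rq k (u i)) f with hDR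
  have hdec : ∀ f, ∑ i, l i * dtp (M + 2) (u i) (T *ᵥ u i) f
      = ∑ k, lcoef T k * DL k f + ∑ k, rcoef T k * DR k f := by
    intro f
    have e : ∀ i, dtp (M + 2) (u i) (T *ᵥ u i) f
        = ∑ k, lcoef T k * dtp (M + 2) (u i) (lq k (u i)) f
          + ∑ k, rcoef T k * dtp (M + 2) (u i) (rq k (u i)) f := by
      intro i
      rw [mulVec_eq_quat T hTa]
      unfold dtp
      simp only [Pi.add_apply, Finset.sum_apply, Pi.smul_apply, smul_eq_mul, mul_add,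
        Finset.sum_add_distrib, Finset.mul_sum]
      congr 1
      · rw [Finset.sum_comm]
        exact Finset.sum_congr rfl fun k _ => Finset.sum_congr rfl fun p _ => by ring
      · rw [Finset.sum_comm]
        exact Finset.sum_congr rfl fun k _ => Finset.sum_congr rfl fun p _ => by ring
    simp only [e, mul_add, Finset.sum_add_distrib, Finset.mul_sum, hDL, hDR]
    congr 1
    · rw [Finset.sum_comm]
      exact Finset.sum_congr rfl fun k _ => Finset.sum_congr rfl fun p _ => by ring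
    · rw [Finset.sum_comm]
      exact Finset.sum_congr rfl fun k _ => Finset.sum_congr rfl fun p _ => by ring
  set α := √(∑ k, lcoef T k ^ 2) with hα
  set γ := √(∑ k, rcoef T k ^ 2) with hγ
  have hα0 : 0 ≤ α := Real.sqrt_nonneg _
  have hγ0 : 0 ≤ γ := Real.sqrt_nonneg _
  have hαγ : α + γ ≤ 1 := coef_bound T hTa hT
  have hαsq : α ^ 2 = ∑ k, lcoef T k ^ 2 :=
    Real.sq_sqrt (Finset.sum_nonneg fun _ _ => sq_nonneg _)
  have hγsq : γ ^ 2 = ∑ k, rcoef T k ^ 2 :=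
    Real.sq_sqrt (Finset.sum_nonneg fun _ _ => sq_nonneg _)
  have hpt : ∀ f, (∑ i, l i * dtp (M + 2) (u i) (T *ᵥ u i) f) ^ 2
      ≤ α * ∑ k, DL k f ^ 2 + γ * ∑ k, DR k f ^ 2 := by
    intro f
    rw [hdec f]
    have c1 := Finset.sum_mul_sq_le_sq_mul_sq (univ : Finset (Fin 3)) (lcoef T) (fun k => DL k f)
    have c2 := Finset.sum_mul_sq_le_sq_mul_sq (univ : Finset (Fin 3)) (rcoef T) (fun k => DR k f)
    rw [← hαsq] at c1
    rw [← hγsq] at c2
    set x := ∑ k, lcoef T k * DL k f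
    set y := ∑ k, rcoef T k * DR k f
    have hP0 : 0 ≤ ∑ k, DL k f ^ 2 := Finset.sum_nonneg fun _ _ => sq_nonneg _
    have hQ0 : 0 ≤ ∑ k, DR k f ^ 2 := Finset.sum_nonneg fun _ _ => sq_nonneg _
    set P := ∑ k, DL k f ^ 2
    set Q := ∑ k, DR k f ^ 2
    have hp : √P ^ 2 = P := Real.sq_sqrt hP0
    have hq : √Q ^ 2 = Q := Real.sq_sqrt hQ0
    have hp0 := Real.sqrt_nonneg P
    have hq0 := Real.sqrt_nonneg Q
    have hx : |x| ≤ α * √P := by
      refine abs_le_of_sq_le_sq ?_ (by positivity)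
      rw [mul_pow, hp]; exact c1
    have hy : |y| ≤ γ * √Q := by
      refine abs_le_of_sq_le_sq ?_ (by positivity)
      rw [mul_pow, hq]; exact c2
    have hxy : |x + y| ≤ α * √P + γ * √Q := (abs_add_le x y).trans (add_le_add hx hy)
    have h1 : (x + y) ^ 2 ≤ (α * √P + γ * √Q) ^ 2 := by
      rw [← sq_abs (x + y)]
      exact pow_le_pow_left₀ (abs_nonneg _) hxy 2
    have h2 : (α * √P + γ * √Q) ^ 2 ≤ (α + γ) * (α * P + γ * Q) := by
      have e : (α + γ) * (α * P + γ * Q) - (α * √P + γ * √Q) ^ 2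
          = α * γ * (√P - √Q) ^ 2 := by
        linear_combination (-(α ^ 2 + α * γ)) * hp - (γ ^ 2 + α * γ) * hq
      have : 0 ≤ α * γ * (√P - √Q) ^ 2 := by positivity
      linarith
    have h3 : (α + γ) * (α * P + γ * Q) ≤ 1 * (α * P + γ * Q) :=
      mul_le_mul_of_nonneg_right hαγ (by positivity)
    linarith
  have hsum : qG l u (fun i => T *ᵥ u i) (M + 2)
      ≤ α * ∑ k, qG l u (fun i => lq k (u i)) (M + 2)
        + γ * ∑ k, qG l u (fun i => rq k (u i)) (M + 2) := by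
    unfold qG
    refine (Finset.sum_le_sum fun f _ => hpt f).trans_eq ?_
    rw [Finset.sum_add_distrib, ← Finset.mul_sum, ← Finset.mul_sum]
    congr 1
    · rw [Finset.sum_comm]
    · rw [Finset.sum_comm]
  rw [sum_qG_lq l u hu M, sum_qG_rq l u hu M] at hsum
  have hΛ : 0 ≤ ((M : ℝ) + 2) * ((M + 4) * qA l u (M + 2) - (M + 1) * qA l u M) := by
    rw [← sum_qG_lq l u hu M]
    exact Finset.sum_nonneg fun k _ => qG_nonneg _ _ _ _
  nlinarith [mul_le_mul_of_nonneg_right hαγ hΛ]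

/-- Lower bound for `qB`. -/
lemma qB_ge (l : ι → ℝ) (u : ι → V4) (hu : ∀ i, u i ⬝ᵥ u i = 1)
    (T : Matrix (Fin 4) (Fin 4) ℝ) (hTa : Tᵀ = -T)
    (hT : ∀ x : V4, (T *ᵥ x) ⬝ᵥ (T *ᵥ x) ≤ x ⬝ᵥ x) (M : ℕ) :
    (M + 1) * qA l u M - (M + 4) * qA l u (M + 2)
      ≤ (M + 1) * qB l u (fun i => T *ᵥ u i) M := by
  have h1 := qG_le l u hu T hTa hT M
  rw [qG_eq l u _ (fun i j => dot_antisymm T hTa (u i) (u j)) M] at h1
  have h2 := qC_nonneg l u (fun i => T *ᵥ u i) (M + 1)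
  have h3 : ((M : ℝ) + 2) * ((M + 1) * qA l u M - (M + 4) * qA l u (M + 2))
      ≤ (M + 2) * ((M + 1) * qB l u (fun i => T *ᵥ u i) M) := by
    nlinarith [mul_nonneg (by positivity : (0:ℝ) ≤ (M:ℝ) + 2) h2]
  exact le_of_mul_le_mul_left h3 (by positivity)

end Pool.Agent.H85.BMK
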