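import Mathlib

set_option autoImplicit false

/-!
# The power series of `1/√(1-x)` and `√(1-x)`
-/

open Finset Filter Topology

namespace Pool.Agent.H85.BMK

/-- `C(2j,j)/4^j`. -/
noncomputable def cb (j : ℕ) : ℝ := (Nat.centralBinom j : ℝ) / 4 ^ j

lemma cb_zero : cb 0 = 1 := by simp [cb]

lemma cb_pos (j : ℕ) : 0 < cb j := by
  unfold cb
  have := Nat.centralBinom_pos j
  positivity

lemma cb_succ (j : ℕ) : cb (j + 1) = cb j * ((2 * j + 1) / (2 * j + 2)) := by
  unfold cb
  have h : ((j : ℝ) + 1) * (Nat.centralBinom (j + 1) : ℝ)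
      = 2 * (2 * j + 1) * (Nat.centralBinom j : ℝ) := by
    exact_mod_cast Nat.succ_mul_centralBinom_succ j
  have h1 : ((j : ℝ) + 1) ≠ 0 := by positivity
  have h2 : (Nat.centralBinom (j + 1) : ℝ)
      = 2 * (2 * j + 1) * (Nat.centralBinom j : ℝ) / (j + 1) := by
    field_simp
    linarith
  rw [h2, pow_succ]
  field_simp
  ring

lemma cb_sub (j : ℕ) : cb j - cb (j + 1) = cb j / (2 * j + 2) := by
  rw [cb_succ]
  have h1 : (2 * (j : ℝ) + 2) ≠ 0 := by positivity
  field_simp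
  ring

lemma cb_sq_le (j : ℕ) : cb j ^ 2 * (2 * j + 1) ≤ 1 := by
  induction j with
  | zero => simp [cb_zero]
  | succ j ih =>
    rw [cb_succ]
    push_cast
    have h1 : (0 : ℝ) < 2 * (j : ℝ) + 2 := by positivity
    have e : (cb j * ((2 * j + 1) / (2 * j + 2))) ^ 2 * (2 * (j + 1) + 1)
        = (cb j ^ 2 * (2 * j + 1)) * (((2 * j + 1) * (2 * j + 3)) / (2 * (j:ℝ) + 2) ^ 2) := by
      field_simp
      ring
    rw [e]
    have h2 : ((2 * (j:ℝ) + 1) * (2 * j + 3)) / (2 * (j:ℝ) + 2) ^ 2 ≤ 1 := by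
      rw [div_le_one (by positivity)]
      nlinarith
    have h3 : 0 ≤ cb j ^ 2 * (2 * (j:ℝ) + 1) := by positivity
    calc (cb j ^ 2 * (2 * j + 1)) * (((2 * j + 1) * (2 * j + 3)) / (2 * (j:ℝ) + 2) ^ 2)
        ≤ (cb j ^ 2 * (2 * j + 1)) * 1 := mul_le_mul_of_nonneg_left h2 h3
      _ ≤ 1 := by linarith

lemma cb_le_one (j : ℕ) : cb j ≤ 1 := by
  have h := cb_sq_le j
  have h0 := cb_pos j
  by_contra hc
  push Not at hc
  have : (1 : ℝ) < cb j ^ 2 * (2 * j + 1) := by
    have h1 : 1 < cb j ^ 2 := by nlinarith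
    have h2 : (1 : ℝ) ≤ 2 * j + 1 := by
      have : (0 : ℝ) ≤ j := Nat.cast_nonneg j
      linarith
    nlinarith
  linarith

lemma cb_tendsto : Tendsto cb atTop (𝓝 0) := by
  have h1 : Tendsto (fun j : ℕ => 1 / (2 * (j : ℝ) + 1)) atTop (𝓝 0) := by
    have := tendsto_one_div_add_atTop_nhds_zero_nat (𝕜 := ℝ)
    refine squeeze_zero (fun j => by positivity) (fun j => ?_) this
    apply one_div_le_one_div_of_le (by positivity)
    have : (0 : ℝ) ≤ j := Nat.cast_nonneg j
    linarith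
  have h2 : Tendsto (fun j : ℕ => cb j ^ 2) atTop (𝓝 0) := by
    refine squeeze_zero (fun j => by positivity) (fun j => ?_) h1
    rw [le_div_iff₀ (by positivity)]
    exact cb_sq_le j
  have h3 := (Real.continuous_sqrt.tendsto 0).comp h2
  simp only [Real.sqrt_zero] at h3
  refine h3.congr fun j => ?_
  simp only [Function.comp]
  exact Real.sqrt_sq (cb_pos j).le

lemma cb_eq_choose (n : ℕ) : Ring.choose ((1 / 2 : ℝ) + n - 1) n = cb n := by
  rw [← Ring.multichoose_eq]
  have h := Ring.factorial_nsmul_multichoose_eq_ascPochhammer (1 / 2 : ℝ) n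
  rw [Polynomial.ascPochhammer_smeval_eq_eval, nsmul_eq_mul] at h
  have h2 : ∀ n : ℕ, (ascPochhammer ℝ n).eval (1 / 2 : ℝ) = (n.factorial : ℝ) * cb n := by
    intro n
    induction n with
    | zero => simp [cb_zero]
    | succ n ih =>
      rw [ascPochhammer_succ_eval, ih, cb_succ, Nat.factorial_succ]
      push_cast
      field_simp
      ring
  rw [h2 n] at h
  exact mul_left_cancel₀ (by positivity) h

/-- The series of `1/√(1-x)`. -/
lemma hasSum_inv_sqrt (x : ℝ) (hx : |x| < 1) :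
    HasSum (fun j : ℕ => cb j * x ^ j) (1 / √(1 - x)) := by
  have h := Real.one_div_one_sub_rpow_hasFPowerSeriesOnBall_zero (1 / 2)
  have h1 := h.hasSum (y := x) (by
    simpa [enorm_eq_nnnorm, ← NNReal.coe_lt_coe] using hx)
  simp only [zero_add, FormalMultilinearSeries.ofScalars_apply_eq, smul_eq_mul, cb_eq_choose] at h1
  rwa [← Real.sqrt_eq_rpow] at h1

/-- The series of `√(1-x)` inside the unit interval. -/
lemma hasSum_sqrt_lt (x : ℝ) (hx : |x| < 1) :
    HasSum (fun j : ℕ => -(cb j / (2 * j + 2)) * x ^ (j + 1)) (√(1 - x) - 1) := by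
  have hx1 : 0 < 1 - x := by linarith [(abs_lt.mp hx).2]
  have h := hasSum_inv_sqrt x hx
  have h1 : HasSum (fun j : ℕ => cb (j + 1) * x ^ (j + 1)) (1 / √(1 - x) - 1) := by
    have := (hasSum_nat_add_iff' (f := fun j : ℕ => cb j * x ^ j) 1).mpr h
    simpa [cb_zero] using this
  have h2 : HasSum (fun j : ℕ => cb j * x ^ (j + 1)) (x * (1 / √(1 - x))) := by
    have := h.mul_left x
    refine this.congr_fun fun j => ?_
    ring
  have h3 := h1.sub h2
  have e : 1 / √(1 - x) - 1 - x * (1 / √(1 - x)) = √(1 - x) - 1 := by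
    have hs : √(1 - x) ≠ 0 := (Real.sqrt_pos.mpr hx1).ne'
    have hs2 : √(1 - x) * √(1 - x) = 1 - x := Real.mul_self_sqrt hx1.le
    field_simp
    nlinarith
  rw [e] at h3
  refine h3.congr_fun fun j => ?_
  rw [← cb_sub]
  ring

/-- The series of `√(1-x)` at `1`. -/
lemma hasSum_sqrt_one :
    HasSum (fun j : ℕ => -(cb j / (2 * j + 2))) (-1) := by
  have hs : ∀ n : ℕ, ∑ j ∈ range n, (cb j / (2 * (j : ℝ) + 2)) = 1 - cb n := by
    intro n
    induction n with
    | zero => simp [cb_zero]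
    | succ n ih => rw [Finset.sum_range_succ, ih, ← cb_sub]; ring
  have h : HasSum (fun j : ℕ => cb j / (2 * (j : ℝ) + 2)) 1 := by
    rw [hasSum_iff_tendsto_nat_of_nonneg (fun j => by have := cb_pos j; positivity)]
    simp only [hs]
    simpa using cb_tendsto.const_sub 1
  exact h.neg

end Pool.Agent.H85.BMK
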