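import Mathlib
import Pool.Agent.H85.BMK.Quat2
import Pool.Agent.H85.BMK.Series

set_option autoImplicit false

/-!
# The kernel inequality
-/

open Finset Matrix Filter Topology

namespace Pool.Agent.H85.BMK

variable {ι : Type*} [Fintype ι]

lemma dot_sq_le_one (u v : V4) (hu : u ⬝ᵥ u = 1) (hv : v ⬝ᵥ v = 1) : (u ⬝ᵥ v) ^ 2 ≤ 1 := by
  have h := sum_lq u v
  have h0 : 0 ≤ ∑ k, (lq k u ⬝ᵥ v) ^ 2 := Finset.sum_nonneg fun _ _ => sq_nonneg _
  rw [hu, hv] at h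
  linarith

lemma mulVec_dot_eq_zero (T : Matrix (Fin 4) (Fin 4) ℝ) (hTa : Tᵀ = -T) (u v : V4)
    (hu : u ⬝ᵥ u = 1) (hv : v ⬝ᵥ v = 1) (huv : (u ⬝ᵥ v) ^ 2 = 1) : (T *ᵥ u) ⬝ᵥ v = 0 := by
  have h1 := sum_lq u v
  have h2 := sum_rq u v
  rw [hu, hv, huv] at h1 h2
  norm_num at h1 h2
  have h1' : ∀ k, lq k u ⬝ᵥ v = 0 := fun k => by
    have := (Finset.sum_eq_zero_iff_of_nonneg (fun _ _ => sq_nonneg _)).mp h1 k (Finset.mem_univ k)
    exact pow_eq_zero_iff (two_ne_zero) |>.mp this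
  have h2' : ∀ k, rq k u ⬝ᵥ v = 0 := fun k => by
    have := (Finset.sum_eq_zero_iff_of_nonneg (fun _ _ => sq_nonneg _)).mp h2 k (Finset.mem_univ k)
    exact pow_eq_zero_iff (two_ne_zero) |>.mp this
  rw [mulVec_eq_quat T hTa, add_dotProduct, sum_dotProduct, sum_dotProduct]
  simp [smul_dotProduct, h1', h2']

/-- The kernel. -/
noncomputable def kf (b t τ : ℝ) : ℝ := √(1 - t ^ 2) + b * (τ ^ 2 / √(1 - t ^ 2))

lemma hasSum_kf (T : Matrix (Fin 4) (Fin 4) ℝ) (hTa : Tᵀ = -T) (u v : V4)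
    (hu : u ⬝ᵥ u = 1) (hv : v ⬝ᵥ v = 1) (b : ℝ) :
    HasSum (fun j : ℕ => cb j * (-((u ⬝ᵥ v) ^ (2 * j + 2) / (2 * j + 2))
        + b * (((T *ᵥ u) ⬝ᵥ v) ^ 2 * (u ⬝ᵥ v) ^ (2 * j))))
      (kf b (u ⬝ᵥ v) ((T *ᵥ u) ⬝ᵥ v) - 1) := by
  unfold kf
  rcases (dot_sq_le_one u v hu hv).lt_or_eq with h | h
  · have hx : |(u ⬝ᵥ v) ^ 2| < 1 := by rwa [abs_of_nonneg (sq_nonneg _)]
    have h1 := hasSum_sqrt_lt _ hx
    have h2 := (hasSum_inv_sqrt _ hx).mul_left (b * ((T *ᵥ u) ⬝ᵥ v) ^ 2)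
    have h3 := h1.add h2
    have e : √(1 - (u ⬝ᵥ v) ^ 2) - 1 + b * ((T *ᵥ u) ⬝ᵥ v) ^ 2 * (1 / √(1 - (u ⬝ᵥ v) ^ 2))
        = √(1 - (u ⬝ᵥ v) ^ 2) + b * (((T *ᵥ u) ⬝ᵥ v) ^ 2 / √(1 - (u ⬝ᵥ v) ^ 2)) - 1 := by
      ring
    rw [e] at h3
    refine h3.congr_fun fun j => ?_
    rw [← pow_mul, ← pow_mul]
    have : 2 * (j + 1) = 2 * j + 2 := by ring
    rw [this]
    ring
  · have hτ := mulVec_dot_eq_zero T hTa u v hu hv h
    rw [hτ, h]
    have h1 := hasSum_sqrt_one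
    have e : √(1 - 1) + b * (0 ^ 2 / √(1 - 1)) - 1 = (-1 : ℝ) := by simp
    rw [e]
    refine h1.congr_fun fun j => ?_
    have : (u ⬝ᵥ v) ^ (2 * j + 2) = 1 := by
      have : 2 * j + 2 = 2 * (j + 1) := by ring
      rw [this, pow_mul, h, one_pow]
    rw [this]
    ring

/-- The terms of the series of the quadratic form. -/
noncomputable def xs (l : ι → ℝ) (u w : ι → V4) (b : ℝ) (j : ℕ) : ℝ :=
  cb j * (-(qA l u (2 * j + 2) / (2 * j + 2)) + b * qB l u w (2 * j))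

lemma hasSum_xs (l : ι → ℝ) (hl : ∑ i, l i = 0) (u : ι → V4) (hu : ∀ i, u i ⬝ᵥ u i = 1)
    (T : Matrix (Fin 4) (Fin 4) ℝ) (hTa : Tᵀ = -T) (b : ℝ) :
    HasSum (xs l u (fun i => T *ᵥ u i) b)
      (∑ i, ∑ j, l i * l j * kf b (u i ⬝ᵥ u j) ((T *ᵥ u i) ⬝ᵥ u j)) := by
  have h := hasSum_sum (s := (univ : Finset ι)) fun i _ =>
    hasSum_sum (s := (univ : Finset ι)) fun j _ =>
      (hasSum_kf T hTa (u i) (u j) (hu i) (hu j) b).mul_left (l i * l j)
  have e : ∑ i, ∑ j, l i * l j * (kf b (u i ⬝ᵥ u j) ((T *ᵥ u i) ⬝ᵥ u j) - 1)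
      = ∑ i, ∑ j, l i * l j * kf b (u i ⬝ᵥ u j) ((T *ᵥ u i) ⬝ᵥ u j) := by
    have h0 : ∑ i, ∑ j, l i * l j = 0 := by
      rw [← Finset.sum_mul_sum, hl, zero_mul]
    simp only [mul_sub, mul_one, Finset.sum_sub_distrib]
    rw [h0, sub_zero]
  rw [e] at h
  refine h.congr_fun fun k => ?_
  unfold xs qA qB
  rw [Finset.sum_div, ← Finset.sum_neg_distrib, Finset.mul_sum, ← Finset.sum_add_distrib,
    Finset.mul_sum]
  refine Finset.sum_congr rfl fun i _ => ?_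
  rw [Finset.sum_div, ← Finset.sum_neg_distrib, Finset.mul_sum, ← Finset.sum_add_distrib,
    Finset.mul_sum]
  refine Finset.sum_congr rfl fun j _ => ?_
  ring

lemma le_zero_of_partial (l : ι → ℝ) (hl : ∑ i, l i = 0) (u : ι → V4)
    (hu : ∀ i, u i ⬝ᵥ u i = 1) (T : Matrix (Fin 4) (Fin 4) ℝ) (hTa : Tᵀ = -T) (b : ℝ)
    (y : ℕ → ℝ) (hy : Tendsto y atTop (𝓝 0))
    (h : ∀ J, 1 ≤ J → ∑ j ∈ range J, xs l u (fun i => T *ᵥ u i) b j ≤ y J) :
    ∑ i, ∑ j, l i * l j * kf b (u i ⬝ᵥ u j) ((T *ᵥ u i) ⬝ᵥ u j) ≤ 0 := by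
  have h1 := (hasSum_xs l hl u hu T hTa b).tendsto_sum_nat
  refine le_of_tendsto_of_tendsto h1 hy ?_
  filter_upwards [eventually_ge_atTop 1] with J hJ using h J hJ

lemma qA_zero (l : ι → ℝ) (hl : ∑ i, l i = 0) (u : ι → V4) : qA l u 0 = 0 := by
  unfold qA
  simp only [pow_zero, mul_one]
  rw [← Finset.sum_mul_sum, hl, zero_mul]

/-- The growth of `qA`. -/
lemma qA_ratio (l : ι → ℝ) (hl : ∑ i, l i = 0) (u : ι → V4) (hu : ∀ i, u i ⬝ᵥ u i = 1) (j : ℕ) :
    (2 * j + 1) * (2 * j + 2) * qA l u (2 * j)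
      ≤ (2 * j) * (2 * j + 6) * qA l u (2 * j + 2) := by
  induction j with
  | zero => simp [qA_zero l hl u]
  | succ j ih =>
    have h := qA_step l u hu (2 * j)
    have e2 : 2 * (j + 1) = 2 * j + 2 := by ring
    have e4 : 2 * j + 2 + 2 = 2 * j + 4 := by ring
    rw [e2, e4]
    push_cast at h ⊢
    set A0 := qA l u (2 * j)
    set A2 := qA l u (2 * j + 2) with hA2
    set A4 := qA l u (2 * j + 4) with hA4
    have p2 : 0 ≤ A2 := qA_nonneg _ _ _
    have p4 : 0 ≤ A4 := qA_nonneg _ _ _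
    have hj : (0 : ℝ) ≤ j := Nat.cast_nonneg j
    rcases p2.lt_or_eq with hp | hp
    · -- positive case
      have h1 : (2 * (j:ℝ) + 4) * (2 * j + 3) * A2 ^ 2
          ≤ A4 * ((2 * j + 2) * (2 * j + 8) * A2) := by
        calc (2 * (j:ℝ) + 4) * (2 * j + 3) * A2 ^ 2
            ≤ A4 * ((2 * j + 2) * (2 * j + 1) * A0 + 4 * (2 * j + 4) * A2) := h
          _ ≤ A4 * ((2 * j + 2) * (2 * j + 8) * A2) := by
              apply mul_le_mul_of_nonneg_left _ p4
              nlinarith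
      have h2 : A2 * ((2 * (j:ℝ) + 4) * (2 * j + 3) * A2)
          ≤ A2 * ((2 * j + 2) * (2 * j + 8) * A4) := by linarith
      have h3 := le_of_mul_le_mul_left h2 hp
      nlinarith
    · rw [← hp]
      have : (0:ℝ) ≤ (2 * (j + 1)) * (2 * (j + 1) + 6) * A4 := by positivity
      simpa using this

/-- The explicit lower bound. -/
lemma qA_ge (l : ι → ℝ) (hl : ∑ i, l i = 0) (u : ι → V4) (hu : ∀ i, u i ⬝ᵥ u i = 1) (j : ℕ) :
    24 * (2 * j + 2) * cb (j + 1) / ((2 * j + 4) * (2 * j + 6)) * qA l u 2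
      ≤ qA l u (2 * j + 2) := by
  induction j with
  | zero =>
    have : cb 1 = 1 / 2 := by
      have := cb_succ 0
      rw [cb_zero] at this
      simpa using this
    simp only [Nat.cast_zero, mul_zero, zero_add, this]
    norm_num
  | succ j ih =>
    have h := qA_ratio l hl u hu (j + 1)
    have e2 : 2 * (j + 1) = 2 * j + 2 := by ring
    rw [e2] at h ⊢
    push_cast at h ⊢
    set A2 := qA l u (2 * j + 2)
    set A4 := qA l u (2 * j + 2 + 2)
    set B := qA l u 2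
    have hj : (0 : ℝ) ≤ j := Nat.cast_nonneg j
    have hb := cb_succ (j + 1)
    push_cast at hb
    rw [hb]
    have h1 : (2 * (j:ℝ) + 3) * (2 * j + 4) / ((2 * j + 2) * (2 * j + 8)) * A2 ≤ A4 := by
      rw [div_mul_eq_mul_div, div_le_iff₀ (by positivity)]
      nlinarith
    refine le_trans ?_ h1
    have h2 := mul_le_mul_of_nonneg_left ih
      (by positivity : (0:ℝ) ≤ (2 * (j:ℝ) + 3) * (2 * j + 4) / ((2 * j + 2) * (2 * j + 8)))
    refine le_trans (le_of_eq ?_) h2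
    field_simp
    ring

lemma weights_sum (J : ℕ) :
    ∑ j ∈ range J, cb j * ((8 * j - 1) / (9 * (2 * j + 2) * (2 * j + 1)))
        * (24 * (2 * j + 2) * cb (j + 1) / ((2 * j + 4) * (2 * j + 6)))
      = -(4 / 3) * cb J ^ 2 * (J / ((J + 1) * (J + 2))) := by
  induction J with
  | zero => simp
  | succ J ih =>
    rw [Finset.sum_range_succ, ih, cb_succ]
    have hJ : (0 : ℝ) ≤ J := Nat.cast_nonneg J
    push_cast
    field_simp
    ring

/-- The case `b = 5/9`. -/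
lemma kernel_upper (l : ι → ℝ) (hl : ∑ i, l i = 0) (u : ι → V4) (hu : ∀ i, u i ⬝ᵥ u i = 1)
    (T : Matrix (Fin 4) (Fin 4) ℝ) (hTa : Tᵀ = -T)
    (hT : ∀ x : V4, (T *ᵥ x) ⬝ᵥ (T *ᵥ x) ≤ x ⬝ᵥ x) :
    ∑ i, ∑ j, l i * l j * kf (5 / 9) (u i ⬝ᵥ u j) ((T *ᵥ u i) ⬝ᵥ u j) ≤ 0 := by
  refine le_zero_of_partial l hl u hu T hTa (5 / 9)
    (fun J => (4 / 3) * cb J ^ 2 * (J / ((J + 1) * (J + 2))) * qA l u 2) ?_ ?_
  · have h1 : Tendsto (fun J : ℕ => cb J ^ 2) atTop (𝓝 0) := by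
      simpa using cb_tendsto.pow 2
    have h2 : Tendsto (fun J : ℕ => (4 / 3) * cb J ^ 2 * qA l u 2) atTop (𝓝 0) := by
      simpa using (h1.const_mul (4 / 3)).mul_const (qA l u 2)
    refine squeeze_zero (fun J => ?_) (fun J => ?_) h2
    · have := qA_nonneg l u 2
      positivity
    · have h3 : (J : ℝ) / ((J + 1) * (J + 2)) ≤ 1 := by
        rw [div_le_one (by positivity)]
        have hJ : (0 : ℝ) ≤ J := Nat.cast_nonneg J
        nlinarith
      have h4 := qA_nonneg l u 2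
      have h5 : 0 ≤ (4 / 3) * cb J ^ 2 := by positivity
      calc (4 / 3) * cb J ^ 2 * (J / ((J + 1) * (J + 2))) * qA l u 2
          ≤ (4 / 3) * cb J ^ 2 * 1 * qA l u 2 :=
            mul_le_mul_of_nonneg_right (mul_le_mul_of_nonneg_left h3 h5) h4
        _ = (4 / 3) * cb J ^ 2 * qA l u 2 := by ring
  · intro J hJ
    have hterm : ∀ j, xs l u (fun i => T *ᵥ u i) (5 / 9) j
        ≤ -(cb j * ((8 * j - 1) / (9 * (2 * j + 2) * (2 * j + 1)))
          * (24 * (2 * j + 2) * cb (j + 1) / ((2 * j + 4) * (2 * j + 6))) * qA l u 2) := by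
      intro j
      have hj : (0 : ℝ) ≤ j := Nat.cast_nonneg j
      have hcb := cb_pos j
      have h1 := qB_le l u T hTa hT (2 * j)
      push_cast at h1
      have h1' : qB l u (fun i => T *ᵥ u i) (2 * j) ≤ qA l u (2 * j + 2) / (2 * j + 1) := by
        rw [le_div_iff₀ (by positivity)]
        linarith
      have h2 : xs l u (fun i => T *ᵥ u i) (5 / 9) j
          ≤ cb j * (-(qA l u (2 * j + 2) / (2 * j + 2))
            + 5 / 9 * (qA l u (2 * j + 2) / (2 * j + 1))) := by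
        unfold xs
        apply mul_le_mul_of_nonneg_left _ hcb.le
        linarith
      have h3 : cb j * (-(qA l u (2 * j + 2) / (2 * j + 2))
            + 5 / 9 * (qA l u (2 * j + 2) / (2 * j + 1)))
          = -(cb j * ((8 * j - 1) / (9 * (2 * j + 2) * (2 * j + 1))) * qA l u (2 * j + 2)) := by
        field_simp
        ring
      rw [h3] at h2
      refine h2.trans (neg_le_neg ?_)
      rcases Nat.eq_zero_or_pos j with h0 | h0
      · subst h0
        have : cb 1 = 1 / 2 := by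
          have := cb_succ 0
          rw [cb_zero] at this
          simpa using this
        simp only [Nat.cast_zero, mul_zero, zero_add, this]
        norm_num
      · have h4 := qA_ge l hl u hu j
        have hj1 : (1 : ℝ) ≤ j := by exact_mod_cast h0
        have h5 : 0 ≤ cb j * ((8 * j - 1) / (9 * (2 * (j:ℝ) + 2) * (2 * j + 1))) := by
          have : 0 ≤ 8 * (j : ℝ) - 1 := by linarith
          positivity
        calc cb j * ((8 * j - 1) / (9 * (2 * j + 2) * (2 * j + 1)))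
            * (24 * (2 * j + 2) * cb (j + 1) / ((2 * j + 4) * (2 * j + 6))) * qA l u 2
            = cb j * ((8 * j - 1) / (9 * (2 * j + 2) * (2 * j + 1)))
            * (24 * (2 * j + 2) * cb (j + 1) / ((2 * j + 4) * (2 * j + 6)) * qA l u 2) := by ring
          _ ≤ _ := mul_le_mul_of_nonneg_left h4 h5
    refine (Finset.sum_le_sum fun j _ => hterm j).trans_eq ?_
    rw [Finset.sum_neg_distrib, ← Finset.sum_mul, weights_sum]
    ring

lemma qA_le_const (l : ι → ℝ) (u : ι → V4) (hu : ∀ i, u i ⬝ᵥ u i = 1) (N : ℕ) :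
    qA l u N ≤ ∑ i, ∑ j, |l i * l j| := by
  unfold qA
  refine Finset.sum_le_sum fun i _ => Finset.sum_le_sum fun j _ => ?_
  have h := dot_sq_le_one (u i) (u j) (hu i) (hu j)
  have h1 : |u i ⬝ᵥ u j| ≤ 1 := by
    have : |u i ⬝ᵥ u j| ^ 2 ≤ 1 := by rwa [sq_abs]
    exact (sq_le_one_iff₀ (abs_nonneg _)).mp this
  have h2 : |(u i ⬝ᵥ u j) ^ N| ≤ 1 := by
    rw [abs_pow]
    exact pow_le_one₀ (abs_nonneg _) h1
  calc l i * l j * (u i ⬝ᵥ u j) ^ N ≤ |l i * l j * (u i ⬝ᵥ u j) ^ N| := le_abs_self _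
    _ = |l i * l j| * |(u i ⬝ᵥ u j) ^ N| := abs_mul _ _
    _ ≤ |l i * l j| * 1 := mul_le_mul_of_nonneg_left h2 (abs_nonneg _)
    _ = |l i * l j| := mul_one _

/-- The case `b = -1/5`. -/
lemma kernel_lower (l : ι → ℝ) (hl : ∑ i, l i = 0) (u : ι → V4) (hu : ∀ i, u i ⬝ᵥ u i = 1)
    (T : Matrix (Fin 4) (Fin 4) ℝ) (hTa : Tᵀ = -T)
    (hT : ∀ x : V4, (T *ᵥ x) ⬝ᵥ (T *ᵥ x) ≤ x ⬝ᵥ x) :
    ∑ i, ∑ j, l i * l j * kf (-1 / 5) (u i ⬝ᵥ u j) ((T *ᵥ u i) ⬝ᵥ u j) ≤ 0 := by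
  refine le_zero_of_partial l hl u hu T hTa (-1 / 5)
    (fun J => cb J * (1 / 5 * ∑ i, ∑ j, |l i * l j|)) ?_ ?_
  · simpa using cb_tendsto.mul_const (1 / 5 * ∑ i, ∑ j, |l i * l j|)
  · intro J hJ
    have hmain : ∑ j ∈ range J, xs l u (fun i => T *ᵥ u i) (-1 / 5) j
        ≤ cb J * (1 / 5 * qA l u (2 * J)) := by
      induction J, hJ using Nat.le_induction with
      | base =>
        have h1 := qA_add_qB_nonneg l u T hTa hT
        have h2 := qA_nonneg l u 2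
        have hc : cb 1 = 1 / 2 := by
          have := cb_succ 0
          rw [cb_zero] at this
          simpa using this
        simp only [Finset.sum_range_one, xs, cb_zero, hc, mul_one, mul_zero, zero_add,
          Nat.cast_zero, one_mul]
        linarith
      | succ J hJ ih =>
        rw [Finset.sum_range_succ, cb_succ]
        have hj1 : (1 : ℝ) ≤ J := by exact_mod_cast hJ
        have h1 := qB_ge l u hu T hTa hT (2 * J)
        push_cast at h1
        have h2 := qA_nonneg l u (2 * J + 2)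
        have hcb := cb_pos J
        have e2 : 2 * (J + 1) = 2 * J + 2 := by ring
        rw [e2]
        set A := qA l u (2 * J)
        set A2 := qA l u (2 * J + 2)
        set B := qB l u (fun i => T *ᵥ u i) (2 * J) with hB
        have hx : xs l u (fun i => T *ᵥ u i) (-1 / 5) J
            = cb J * (-(A2 / (2 * J + 2)) + (-1 / 5) * B) := rfl
        rw [hx]
        have hBge : A - (2 * J + 4) / (2 * J + 1) * A2 ≤ B := by
          have e : A - (2 * J + 4) / (2 * J + 1) * A2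
              = ((2 * J + 1) * A - (2 * J + 4) * A2) / (2 * J + 1) := by
            field_simp
          rw [e, div_le_iff₀ (by positivity)]
          linarith
        have hfin : 1 / 5 * A + (-(A2 / (2 * J + 2)) + (-1 / 5) * B)
            ≤ (2 * J + 1) / (2 * J + 2) * (1 / 5 * A2) := by
          have h3 : -(A2 / (2 * (J:ℝ) + 2)) + 1 / 5 * ((2 * J + 4) / (2 * J + 1) * A2)
              ≤ (2 * J + 1) / (2 * J + 2) * (1 / 5 * A2) := by
            have e : (2 * (J:ℝ) + 1) / (2 * J + 2) * (1 / 5 * A2)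
                - (-(A2 / (2 * (J:ℝ) + 2)) + 1 / 5 * ((2 * J + 4) / (2 * J + 1) * A2))
                = A2 * ((2 * J - 2) / (5 * (2 * J + 1) * (2 * J + 2))) := by
              field_simp
              ring
            have : 0 ≤ A2 * ((2 * (J:ℝ) - 2) / (5 * (2 * J + 1) * (2 * J + 2))) := by
              apply mul_nonneg h2
              apply div_nonneg (by linarith) (by positivity)
            linarith
          linarith
        calc (∑ j ∈ range J, xs l u (fun i => T *ᵥ u i) (-1 / 5) j)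
              + cb J * (-(A2 / (2 * J + 2)) + (-1 / 5) * B)
            ≤ cb J * (1 / 5 * A) + cb J * (-(A2 / (2 * J + 2)) + (-1 / 5) * B) := by linarith
          _ = cb J * (1 / 5 * A + (-(A2 / (2 * J + 2)) + (-1 / 5) * B)) := by ring
          _ ≤ cb J * ((2 * J + 1) / (2 * J + 2) * (1 / 5 * A2)) :=
              mul_le_mul_of_nonneg_left hfin hcb.le
          _ = cb J * ((2 * J + 1) / (2 * J + 2)) * (1 / 5 * A2) := by ring
    refine hmain.trans ?_
    apply mul_le_mul_of_nonneg_left _ (cb_pos J).le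
    apply mul_le_mul_of_nonneg_left _ (by norm_num)
    exact qA_le_const l u hu (2 * J)

/-- **The kernel inequality.** -/
theorem kernel_nonpos (l : ι → ℝ) (hl : ∑ i, l i = 0) (u : ι → V4) (hu : ∀ i, u i ⬝ᵥ u i = 1)
    (T : Matrix (Fin 4) (Fin 4) ℝ) (hTa : Tᵀ = -T)
    (hT : ∀ x : V4, (T *ᵥ x) ⬝ᵥ (T *ᵥ x) ≤ x ⬝ᵥ x) (b : ℝ) (hb1 : -1 / 5 ≤ b)
    (hb2 : b ≤ 5 / 9) :
    ∑ i, ∑ j, l i * l j * kf b (u i ⬝ᵥ u j) ((T *ᵥ u i) ⬝ᵥ u j) ≤ 0 := by
  have h1 := kernel_upper l hl u hu T hTa hT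
  have h2 := kernel_lower l hl u hu T hTa hT
  set s := (b + 1 / 5) * (45 / 34) with hs
  have hs0 : 0 ≤ s := by rw [hs]; apply mul_nonneg <;> linarith
  have hs1 : s ≤ 1 := by rw [hs]; linarith
  have e : ∑ i, ∑ j, l i * l j * kf b (u i ⬝ᵥ u j) ((T *ᵥ u i) ⬝ᵥ u j)
      = s * (∑ i, ∑ j, l i * l j * kf (5 / 9) (u i ⬝ᵥ u j) ((T *ᵥ u i) ⬝ᵥ u j))
        + (1 - s) * (∑ i, ∑ j, l i * l j * kf (-1 / 5) (u i ⬝ᵥ u j) ((T *ᵥ u i) ⬝ᵥ u j)) := by
    rw [Finset.mul_sum, Finset.mul_sum, ← Finset.sum_add_distrib]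
    refine Finset.sum_congr rfl fun i _ => ?_
    rw [Finset.mul_sum, Finset.mul_sum, ← Finset.sum_add_distrib]
    refine Finset.sum_congr rfl fun j _ => ?_
    unfold kf
    rw [hs]
    ring
  rw [e]
  have := mul_nonneg hs0 (neg_nonneg.mpr h1)
  have := mul_nonneg (sub_nonneg.mpr hs1) (neg_nonneg.mpr h2)
  linarith

end Pool.Agent.H85.BMK
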